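import Pool.Agent.H423.SH.Step

/-! # The denominators of the values of a family of polynomials -/

set_option autoImplicit false

open NumberField Height Function Polynomial

namespace Pool.Agent.H423.SH

open Q241.AK Q265.NF Q265.BM Q265.BD

section

variable {F : Type} [Field F] [NumberField F]

lemma nat_le_one {L : Type} [Field L] [NumberField L] (v : FinitePlace L) (n : ℕ) :
    v (n : L) ≤ 1 := by
  have := int_le (K := ℚ) v (x := (n : ℚ)) (isIntegral_natCast n)
  simpa using this

lemma nat_of_mul {L : Type} [Field L] [NumberField L] (v : FinitePlace L) {a b : ℕ}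
    (h : v ((a * b : ℕ) : L) = 1) : v (a : L) = 1 := by
  rw [Nat.cast_mul, map_mul] at h
  have h1 := nat_le_one v a
  have h2 := nat_le_one v b
  have h3 : 0 ≤ v (a : L) := apply_nonneg v _
  refine le_antisymm h1 ?_
  nlinarith

/-- a number of a field is integral outside some integer -/
lemma clearN (c : F) : ∃ n : ℕ, 0 < n ∧ ∀ (L : Type) [Field L] [NumberField L] [Algebra F L]
    (v : FinitePlace L), v (n : L) = 1 → v (algebraMap F L c) ≤ 1 := by
  have halg : IsAlgebraic ℤ c := (IsFractionRing.isAlgebraic_iff ℤ ℚ F).2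
    (Algebra.IsAlgebraic.isAlgebraic c)
  obtain ⟨n, hn0, hn⟩ := halg.exists_integral_multiple
  refine ⟨n.natAbs, Int.natAbs_pos.2 hn0, fun L _ _ _ v hv => ?_⟩
  have h1 : IsIntegral ℤ (((n.natAbs : ℕ) : F) * c) := by
    rcases Int.natAbs_eq n with h | h
    · rw [h] at hn
      simpa using hn
    · have h2 : IsIntegral ℤ (-(n • c)) := hn.neg
      have h3 : -(n • c) = ((n.natAbs : ℕ) : F) * c := by
        have h5 : (n : F) = -((n.natAbs : ℕ) : F) := by
          have := congrArg (fun z : ℤ => (z : F)) h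
          simp only [Int.cast_neg, Int.cast_natCast] at this
          exact this
        rw [zsmul_eq_mul, h5]
        ring
      rwa [h3] at h2
  have h4 := int_le (L := L) v h1
  rw [map_mul, map_mul, map_natCast, hv, one_mul] at h4
  exact h4

/-- the denominator of a value -/
theorem den_one {D : ℕ} (hD : 1 ≤ D) {f : F[X]} (hf : f.natDegree = D) :
    ∃ n : ℕ, 0 < n ∧ ∀ (L : Type) [Field L] [NumberField L] [Algebra F L] (t : L)
      (v : FinitePlace L), v (n : L) = 1 →
      max 1 (v ((f.map (algebraMap F L)).eval t)) = (max 1 (v t)) ^ D := by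
  classical
  choose n hn0 hn using fun c : F => clearN c
  obtain ⟨a, ha⟩ : ∃ a : F, a = f.leadingCoeff := ⟨_, rfl⟩
  have hf0 : f ≠ 0 := by
    rintro rfl
    rw [natDegree_zero] at hf
    omega
  have ha0 : a ≠ 0 := by
    rw [ha]
    exact leadingCoeff_ne_zero.2 hf0
  refine ⟨n a⁻¹ * ∏ i ∈ Finset.range (D + 1), n (f.coeff i), ?_, fun L _ _ _ t v hv => ?_⟩
  · exact Nat.mul_pos (hn0 _) (Finset.prod_pos fun i _ => hn0 _)
  have h1 : v (algebraMap F L a⁻¹) ≤ 1 := hn _ L v (nat_of_mul v hv)
  have h2 : ∀ i, v (algebraMap F L (f.coeff i)) ≤ 1 := by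
    intro i
    by_cases hi : i ∈ Finset.range (D + 1)
    · refine hn _ L v ?_
      have h3 : n a⁻¹ * ∏ i ∈ Finset.range (D + 1), n (f.coeff i) = n (f.coeff i) *
          (n a⁻¹ * ∏ j ∈ (Finset.range (D + 1)).erase i, n (f.coeff j)) := by
        rw [← Finset.mul_prod_erase _ _ hi]
        ring
      rw [h3] at hv
      exact nat_of_mul v hv
    · rw [Finset.mem_range, not_lt] at hi
      rw [coeff_eq_zero_of_natDegree_lt (by omega), map_zero, map_zero]
      exact zero_le_one
  have hva : v (algebraMap F L a) = 1 := by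
    have h3 : v (algebraMap F L a) ≤ 1 := by
      rw [ha]
      exact h2 _
    have h4 : v (algebraMap F L a) * v (algebraMap F L a⁻¹) = 1 := by
      rw [← map_mul, ← map_mul, mul_inv_cancel₀ ha0, map_one, map_one]
    have h5 : 0 ≤ v (algebraMap F L a) := apply_nonneg v _
    refine le_antisymm h3 ?_
    nlinarith
  obtain ⟨g, hg⟩ : ∃ g : F[X], g = f.eraseLead := ⟨_, rfl⟩
  have hgdeg : g.natDegree ≤ D - 1 := by
    rw [hg, ← hf]
    exact eraseLead_natDegree_le f
  have hfg : f = g + C a * X ^ D := by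
    rw [hg, ha, ← hf]
    exact (eraseLead_add_C_mul_X_pow f).symm
  have hgc : ∀ i, v (algebraMap F L (g.coeff i)) ≤ 1 := by
    intro i
    rw [hg, eraseLead_coeff]
    split_ifs
    · rw [map_zero, map_zero]
      exact zero_le_one
    · exact h2 i
  have hgv : v ((g.map (algebraMap F L)).eval t) ≤ (max (v t) 1) ^ (D - 1) := by
    have := fin_eval v (g.map (algebraMap F L)) (n := D - 1) (natDegree_map_le.trans hgdeg)
      zero_le_one (fun i => by
        rw [coeff_map]
        exact hgc i) t
    rwa [one_mul] at this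
  obtain ⟨y, hy⟩ : ∃ y : L, y = (f.map (algebraMap F L)).eval t := ⟨_, rfl⟩
  obtain ⟨y', hy'⟩ : ∃ y' : L, y' = (g.map (algebraMap F L)).eval t := ⟨_, rfl⟩
  have hyy : y = y' + algebraMap F L a * t ^ D := by
    rw [hy, hy', hfg, Polynomial.map_add, Polynomial.map_mul, Polynomial.map_pow, map_X, map_C,
      eval_add, eval_mul, eval_pow, eval_X, eval_C]
  rw [← hy]
  rw [← hy'] at hgv
  have hlead : v (algebraMap F L a * t ^ D) = v t ^ D := by
    rw [map_mul, map_pow, hva, one_mul]
  rcases le_or_gt (v t) 1 with ht | ht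
  · rw [max_eq_left ht, one_pow]
    refine max_eq_left ?_
    rw [hyy]
    refine (FinitePlace.add_le v _ _).trans (max_le ?_ ?_)
    · refine hgv.trans ?_
      rw [max_eq_right ht, one_pow]
    · rw [hlead]
      exact pow_le_one₀ (apply_nonneg v t) ht
  · rw [max_eq_right ht.le]
    rw [max_eq_left ht.le] at hgv
    have h6 : v t ^ (D - 1) < v t ^ D := pow_lt_pow_right₀ ht (by omega)
    have h7 : v y ≤ v t ^ D := by
      rw [hyy]
      refine (FinitePlace.add_le v _ _).trans (max_le (hgv.trans h6.le) hlead.le)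
    have h8 : v t ^ D ≤ v y := by
      have h9 : algebraMap F L a * t ^ D = y + -y' := by
        rw [hyy]
        ring
      have h10 := FinitePlace.add_le v y (-y')
      rw [← h9, hlead, fneg'] at h10
      rcases le_max_iff.1 h10 with h11 | h11
      · exact h11
      · exact absurd (h11.trans hgv) (not_le.2 h6)
    rw [le_antisymm h7 h8]
    exact max_eq_right (one_le_pow₀ ht.le)

/-- the denominators of the values of a family -/
theorem den_family {D : ℕ} (hD : 1 ≤ D) (P : Finset F[X]) (hP : ∀ f ∈ P, Good D f) :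
    ∃ n : ℕ, 0 < n ∧ ∀ (L : Type) [Field L] [NumberField L] [Algebra F L] (t : L)
      (v : FinitePlace L), v (n : L) = 1 → ∀ f ∈ P,
      max 1 (v ((f.map (algebraMap F L)).eval t)) = (max 1 (v t)) ^ D := by
  classical
  have h1 : ∀ f : F[X], ∃ n : ℕ, 0 < n ∧ (f ∈ P → ∀ (L : Type) [Field L] [NumberField L]
      [Algebra F L] (t : L) (v : FinitePlace L), v (n : L) = 1 →
      max 1 (v ((f.map (algebraMap F L)).eval t)) = (max 1 (v t)) ^ D) := by
    intro f
    by_cases hf : f ∈ P
    · obtain ⟨n, h1, h2⟩ := den_one hD (hP f hf).deg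
      exact ⟨n, h1, fun _ => h2⟩
    · exact ⟨1, one_pos, fun h => absurd h hf⟩
  choose n hn0 hn using h1
  refine ⟨∏ f ∈ P, n f, Finset.prod_pos fun f _ => hn0 f, fun L _ _ _ t v hv f hf => ?_⟩
  refine hn f hf L t v ?_
  rw [← Finset.mul_prod_erase _ _ hf] at hv
  exact nat_of_mul v hv

end

end Pool.Agent.H423.SH
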