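import Pool.Agent.H423.SH.Homo2

/-! # Weighted power sums: zeros over a number field -/

set_option autoImplicit false

open MvPolynomial

namespace Pool.Agent.H423.SH

/-- A finite number of complex numbers can be replaced by elements of a number field which satisfy
the same polynomial equations over the rationals. -/
theorem specialise {σ : Type} [Finite σ] (x : σ → ℂ) :
    ∃ (K : Type) (_ : Field K) (_ : NumberField K) (y : σ → K),
      ∀ P : MvPolynomial σ ℚ, aeval x P = 0 → aeval y P = 0 := by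
  obtain ⟨J, hJ⟩ : ∃ J : Ideal (MvPolynomial σ ℚ), J = RingHom.ker (aeval (R := ℚ) x) := ⟨_, rfl⟩
  have hJne : J ≠ ⊤ := by
    rw [hJ]
    exact RingHom.ker_ne_top _
  obtain ⟨M, hM, hJM⟩ := Ideal.exists_le_maximal J hJne
  let _ : Field (MvPolynomial σ ℚ ⧸ M) := Ideal.Quotient.field M
  have h1 : Module.Finite ℚ (MvPolynomial σ ℚ ⧸ M) :=
    finite_of_finite_type_of_isJacobsonRing ℚ (MvPolynomial σ ℚ ⧸ M)
  have h3 : NumberField (MvPolynomial σ ℚ ⧸ M) :=
    NumberField.of_module_finite ℚ (MvPolynomial σ ℚ ⧸ M)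
  refine ⟨MvPolynomial σ ℚ ⧸ M, inferInstance, h3, fun i => Ideal.Quotient.mk M (X i),
    fun P hP => ?_⟩
  have h4 : P ∈ M := by
    apply hJM
    rw [hJ, RingHom.mem_ker]
    exact hP
  have h5 : ∀ (f g : MvPolynomial σ ℚ →+* (MvPolynomial σ ℚ ⧸ M)), (∀ i, f (X i) = g (X i)) →
      f = g := by
    intro f g hfg
    refine MvPolynomial.ringHom_ext' ?_ hfg
    exact Subsingleton.elim _ _
  have h6 : (aeval (R := ℚ) (fun i => Ideal.Quotient.mk M (X i)) :
      MvPolynomial σ ℚ →ₐ[ℚ] (MvPolynomial σ ℚ ⧸ M)).toRingHom = Ideal.Quotient.mk M :=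
    h5 _ _ fun i => aeval_X _ i
  have h7 := congrArg (fun f : MvPolynomial σ ℚ →+* (MvPolynomial σ ℚ ⧸ M) => f P) h6
  have h8 : aeval (R := ℚ) (fun i => Ideal.Quotient.mk M (X i)) P = Ideal.Quotient.mk M P := h7
  rw [Ideal.Quotient.eq_zero_iff_mem.2 h4] at h8
  exact h8

/-- **Many zeros over a number field.** -/
theorem exists_field {k : ℕ} (m : Fin k → ℕ) (hm : ∀ i, 1 ≤ m i) (hk : 1 ≤ k) :
    ∃ (K : Type) (_ : Field K) (_ : NumberField K) (Z : Equiv.Perm (Fin k) → (Fin k → K)),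
      Function.Injective Z ∧ ∀ π,
      (∀ j, 1 ≤ j → j < k → ∑ i, (m i : K) * Z π i ^ j = 0) ∧ ∑ i, (m i : K) * Z π i ^ k = k := by
  classical
  obtain ⟨Z, hZ1, hZ2⟩ := exists_sols m hm hk
  have : Nonempty (Fin k) := ⟨⟨0, by omega⟩⟩
  have hI : ∀ π π' : Equiv.Perm (Fin k), ∃ i, π ≠ π' → Z π i ≠ Z π' i := by
    intro π π'
    by_cases h : π = π'
    · exact ⟨Classical.arbitrary _, fun h' => absurd h h'⟩
    · obtain ⟨i, hi⟩ := Function.ne_iff.1 (hZ1.ne h)
      exact ⟨i, fun _ => hi⟩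
  choose I hI using hI
  obtain ⟨d, hd⟩ : ∃ d : ℂ, d = ∏ p ∈ (Finset.univ : Finset (Equiv.Perm (Fin k))).offDiag,
      (Z p.1 (I p.1 p.2) - Z p.2 (I p.1 p.2)) := ⟨_, rfl⟩
  have hd0 : d ≠ 0 := by
    rw [hd]
    refine Finset.prod_ne_zero_iff.2 fun p hp => ?_
    rw [Finset.mem_offDiag] at hp
    exact sub_ne_zero.2 (hI _ _ hp.2.2)
  obtain ⟨x, hx⟩ : ∃ x : Option (Equiv.Perm (Fin k) × Fin k) → ℂ,
      x = fun o => o.elim d⁻¹ (fun p => Z p.1 p.2) := ⟨_, rfl⟩
  obtain ⟨K, i1, i2, y, hy⟩ := specialise x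
  refine ⟨K, i1, i2, fun π i => y (some (π, i)), ?_, fun π => ⟨fun j hj1 hj2 => ?_, ?_⟩⟩
  · have h1 := hy (X none * ∏ p ∈ (Finset.univ : Finset (Equiv.Perm (Fin k))).offDiag,
      (X (some (p.1, I p.1 p.2)) - X (some (p.2, I p.1 p.2))) - 1) (by
        rw [map_sub, map_mul, map_prod, map_one, aeval_X]
        simp only [map_sub, aeval_X, hx, Option.elim_none, Option.elim_some]
        rw [← hd, inv_mul_cancel₀ hd0, sub_self])
    rw [map_sub, map_mul, map_prod, map_one, aeval_X, sub_eq_zero] at h1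
    have h2 := right_ne_zero_of_mul_eq_one h1
    intro π π' hππ
    by_contra hne
    refine Finset.prod_ne_zero_iff.1 h2 (π, π') ?_ ?_
    · rw [Finset.mem_offDiag]
      exact ⟨Finset.mem_univ _, Finset.mem_univ _, hne⟩
    · rw [map_sub, aeval_X, aeval_X]
      exact sub_eq_zero.2 (congrFun hππ _)
  · have h1 := hy (∑ i, C (m i : ℚ) * X (some (π, i)) ^ j) (by
        rw [map_sum]
        simp only [map_mul, map_pow, aeval_X, aeval_C, hx, Option.elim_some, map_natCast]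
        exact (hZ2 π).1 j hj1 hj2)
    rw [map_sum] at h1
    simp only [map_mul, map_pow, aeval_X, aeval_C, map_natCast] at h1
    exact h1
  · have h1 := hy (∑ i, C (m i : ℚ) * X (some (π, i)) ^ k - C (k : ℚ)) (by
        rw [map_sub, map_sum]
        simp only [map_mul, map_pow, aeval_X, aeval_C, hx, Option.elim_some, map_natCast]
        rw [(hZ2 π).2, sub_self])
    rw [map_sub, map_sum] at h1
    simp only [map_mul, map_pow, aeval_X, aeval_C, map_natCast] at h1
    exact sub_eq_zero.1 h1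

end Pool.Agent.H423.SH
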