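import Pool.Agent.H423.SH.Van

/-! # Weighted power sums: continuation of the zeros in the weights -/

set_option autoImplicit false

open Filter Topology

namespace Pool.Agent.H423.SH

section maps

variable {k : ℕ} (m : Fin k → ℕ)

/-- the weights at time `t` -/
noncomputable def wt (t : ℂ) (i : Fin k) : ℂ := 1 + t * ((m i : ℂ) - 1)

/-- the system at time `t` -/
noncomputable def G (p : ℂ × (Fin k → ℂ)) (j : Fin k) : ℂ :=
  ∑ i, wt m p.1 i * p.2 i ^ ((j : ℕ) + 1) - (if (j : ℕ) + 1 = k then (k : ℂ) else 0)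

/-- the system and the time -/
noncomputable def F (p : ℂ × (Fin k → ℂ)) : ℂ × (Fin k → ℂ) := (p.1, G m p)

/-- the derivative -/
noncomputable def D (p : ℂ × (Fin k → ℂ)) : (ℂ × (Fin k → ℂ)) →L[ℂ] (ℂ × (Fin k → ℂ)) :=
  (ContinuousLinearMap.fst ℂ ℂ (Fin k → ℂ)).prod (ContinuousLinearMap.pi fun j => ∑ i,
    (wt m p.1 i • ((((j : ℕ) + 1) • p.2 i ^ (((j : ℕ) + 1) - 1)) •
      (ContinuousLinearMap.proj (R := ℂ) (φ := fun _ : Fin k => ℂ) i).comp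
        (ContinuousLinearMap.snd ℂ ℂ (Fin k → ℂ))) +
    (p.2 i ^ ((j : ℕ) + 1)) • (((m i : ℂ) - 1) • ContinuousLinearMap.fst ℂ ℂ (Fin k → ℂ))))

theorem strict (p : ℂ × (Fin k → ℂ)) : HasStrictFDerivAt (F m) (D m p) p := by
  unfold F D
  refine HasStrictFDerivAt.prodMk hasStrictFDerivAt_fst ?_
  refine hasStrictFDerivAt_pi.2 fun j => ?_
  unfold G
  refine HasStrictFDerivAt.sub_const _ ?_
  refine HasStrictFDerivAt.fun_sum fun i _ => ?_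
  have h1 : HasStrictFDerivAt (fun x : ℂ × (Fin k → ℂ) => wt m x.1 i)
      (((m i : ℂ) - 1) • ContinuousLinearMap.fst ℂ ℂ (Fin k → ℂ)) p := by
    unfold wt
    exact (hasStrictFDerivAt_fst.mul_const ((m i : ℂ) - 1)).const_add 1
  have h2 : HasStrictFDerivAt (fun x : ℂ × (Fin k → ℂ) => x.2 i)
      ((ContinuousLinearMap.proj (R := ℂ) (φ := fun _ : Fin k => ℂ) i).comp
        (ContinuousLinearMap.snd ℂ ℂ (Fin k → ℂ))) p :=
    ((ContinuousLinearMap.proj (R := ℂ) (φ := fun _ : Fin k => ℂ) i).comp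
        (ContinuousLinearMap.snd ℂ ℂ (Fin k → ℂ))).hasStrictFDerivAt
  exact h1.mul (h2.pow ((j : ℕ) + 1))

/-- the positivity of the weights -/
lemma wt_pos (hm : ∀ i, 1 ≤ m i) {t : ℝ} (ht : t ∈ Set.Icc (0 : ℝ) 1) (i : Fin k) :
    ∃ r : ℝ, 0 < r ∧ wt m (t : ℂ) i = (r : ℂ) := by
  have h1 : (1 : ℝ) ≤ m i := by exact_mod_cast hm i
  refine ⟨1 + t * ((m i : ℝ) - 1), ?_, ?_⟩
  · have : 0 ≤ t * ((m i : ℝ) - 1) := mul_nonneg ht.1 (by linarith)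
    linarith
  · unfold wt
    push_cast
    ring

lemma wt_sum (hm : ∀ i, 1 ≤ m i) {t : ℝ} (ht : t ∈ Set.Icc (0 : ℝ) 1) (S : Finset (Fin k))
    (hS : S.Nonempty) : ∑ i ∈ S, wt m (t : ℂ) i ≠ 0 := by
  choose r hr0 hr using fun i => wt_pos m hm ht i
  rw [Finset.sum_congr rfl fun i _ => hr i, ← Complex.ofReal_sum]
  exact Complex.ofReal_ne_zero.2 (Finset.sum_pos (fun i _ => hr0 i) hS).ne'

lemma wt_ne (hm : ∀ i, 1 ≤ m i) {t : ℝ} (ht : t ∈ Set.Icc (0 : ℝ) 1) (i : Fin k) :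
    wt m (t : ℂ) i ≠ 0 := by
  obtain ⟨r, h1, h2⟩ := wt_pos m hm ht i
  rw [h2]
  exact Complex.ofReal_ne_zero.2 h1.ne'

/-- the equations -/
lemma G_zero {t : ℂ} {z : Fin k → ℂ} (h : G m (t, z) = 0) (hk : 1 ≤ k) :
    (∀ j, 1 ≤ j → j < k → ∑ i, wt m t i * z i ^ j = 0) ∧ ∑ i, wt m t i * z i ^ k = k := by
  constructor
  · intro j hj1 hj2
    have h1 := congrFun h ⟨j - 1, by omega⟩
    unfold G at h1
    simp only at h1
    rw [show j - 1 + 1 = j by omega, if_neg (by omega), sub_zero] at h1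
    exact h1
  · have h1 := congrFun h ⟨k - 1, by omega⟩
    unfold G at h1
    simp only at h1
    rw [show k - 1 + 1 = k by omega, if_pos rfl, Pi.zero_apply, sub_eq_zero] at h1
    exact h1

lemma G_zero_of {t : ℂ} {z : Fin k → ℂ}
    (h1 : ∀ j, 1 ≤ j → j < k → ∑ i, wt m t i * z i ^ j = 0)
    (h2 : ∑ i, wt m t i * z i ^ k = k) : G m (t, z) = 0 := by
  funext j
  unfold G
  simp only [Pi.zero_apply]
  by_cases hj : (j : ℕ) + 1 = k
  · rw [if_pos hj, hj, h2, sub_self]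
  · rw [if_neg hj, sub_zero]
    exact h1 _ (by omega) (by have := j.2; omega)

/-- distinct nonzero coordinates -/
lemma sol_inj (hm : ∀ i, 1 ≤ m i) (hk : 1 ≤ k) {t : ℝ} (ht : t ∈ Set.Icc (0 : ℝ) 1)
    {z : Fin k → ℂ} (h : G m ((t : ℂ), z) = 0) : Function.Injective z ∧ ∀ i, z i ≠ 0 := by
  obtain ⟨h1, h2⟩ := G_zero m h hk
  refine inj_of (w := wt m (t : ℂ)) (wt_sum m hm ht) h1 ?_ hk
  rw [h2]
  exact_mod_cast (by omega : k ≠ 0)

/-- the derivative is injective at the zeros -/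
lemma D_inj (hm : ∀ i, 1 ≤ m i) (hk : 1 ≤ k) {t : ℝ} (ht : t ∈ Set.Icc (0 : ℝ) 1)
    {z : Fin k → ℂ} (h : G m ((t : ℂ), z) = 0) : Function.Injective (D m ((t : ℂ), z)) := by
  rw [injective_iff_map_eq_zero]
  rintro ⟨s, v⟩ hsv
  have h1 : s = 0 := congrArg Prod.fst hsv
  have h2 : ∀ j : Fin k, (D m ((t : ℂ), z) (s, v)).2 j = 0 := fun j => by
    rw [hsv]
    rfl
  have h3 : v = 0 := by
    refine jac (w := wt m (t : ℂ)) (u := z) (wt_ne m hm ht) (sol_inj m hm hk ht h).1 fun j => ?_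
    have h4 := h2 j
    unfold D at h4
    simp only [ContinuousLinearMap.prod_apply, ContinuousLinearMap.coe_pi', ContinuousLinearMap.sum_apply,
      ContinuousLinearMap.add_apply, ContinuousLinearMap.smul_apply, ContinuousLinearMap.comp_apply,
      ContinuousLinearMap.proj_apply, ContinuousLinearMap.coe_fst', ContinuousLinearMap.coe_snd',
      h1, smul_zero, add_zero, Nat.add_sub_cancel, smul_eq_mul, nsmul_eq_mul, mul_zero] at h4
    exact h4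
  rw [h1, h3]
  rfl

/-- the derivative as an equivalence -/
lemma exists_equiv (hm : ∀ i, 1 ≤ m i) (hk : 1 ≤ k) {t : ℝ} (ht : t ∈ Set.Icc (0 : ℝ) 1)
    {z : Fin k → ℂ} (h : G m ((t : ℂ), z) = 0) :
    ∃ e : (ℂ × (Fin k → ℂ)) ≃L[ℂ] (ℂ × (Fin k → ℂ)),
      HasStrictFDerivAt (F m) (e : (ℂ × (Fin k → ℂ)) →L[ℂ] (ℂ × (Fin k → ℂ))) ((t : ℂ), z) := by
  obtain ⟨e, he⟩ : ∃ e : (ℂ × (Fin k → ℂ)) ≃L[ℂ] (ℂ × (Fin k → ℂ)),
      (e : (ℂ × (Fin k → ℂ)) →L[ℂ] (ℂ × (Fin k → ℂ))) = D m ((t : ℂ), z) := by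
    refine ⟨(LinearEquiv.ofInjectiveEndo (D m ((t : ℂ), z)).toLinearMap
      (D_inj m hm hk ht h)).toContinuousLinearEquiv, ?_⟩
    ext x <;> rfl
  exact ⟨e, by rw [he]; exact strict m _⟩

/-- local continuation -/
lemma local_open (hm : ∀ i, 1 ≤ m i) (hk : 1 ≤ k) {t : ℝ} (ht : t ∈ Set.Icc (0 : ℝ) 1)
    {z : Fin k → ℂ} (h : G m ((t : ℂ), z) = 0) {U : Set (Fin k → ℂ)} (hU : U ∈ 𝓝 z) :
    ∀ᶠ t' : ℝ in 𝓝 t, ∃ z' ∈ U, G m ((t' : ℂ), z') = 0 := by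
  obtain ⟨e, he⟩ := exists_equiv m hm hk ht h
  have h1 := he.map_nhds_eq_of_equiv
  have h2 : (Set.univ ×ˢ U : Set (ℂ × (Fin k → ℂ))) ∈ 𝓝 ((t : ℂ), z) :=
    prod_mem_nhds univ_mem hU
  have h3 : F m '' (Set.univ ×ˢ U) ∈ 𝓝 (F m ((t : ℂ), z)) := by
    rw [← h1]
    exact image_mem_map h2
  have h4 : F m ((t : ℂ), z) = ((t : ℂ), 0) := by
    unfold F
    rw [h]
  rw [h4] at h3
  have h5 : Tendsto (fun t' : ℝ => (((t' : ℂ), 0) : ℂ × (Fin k → ℂ))) (𝓝 t) (𝓝 ((t : ℂ), 0)) := by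
    have : Continuous (fun t' : ℝ => (((t' : ℂ), 0) : ℂ × (Fin k → ℂ))) := by fun_prop
    exact this.tendsto t
  filter_upwards [h5 h3] with t' ht'
  obtain ⟨⟨a, z'⟩, ⟨-, hz'⟩, hF⟩ := ht'
  unfold F at hF
  rw [Prod.mk.injEq] at hF
  obtain ⟨hF1, hF2⟩ := hF
  simp only at hF1
  refine ⟨z', hz', ?_⟩
  rw [← hF1]
  exact hF2

/-- local uniqueness -/
lemma local_inj (hm : ∀ i, 1 ≤ m i) (hk : 1 ≤ k) {t : ℝ} (ht : t ∈ Set.Icc (0 : ℝ) 1)
    {z : Fin k → ℂ} (h : G m ((t : ℂ), z) = 0) :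
    ∃ V ∈ 𝓝 ((t : ℂ), z), Set.InjOn (F m) V := by
  obtain ⟨e, he⟩ := exists_equiv m hm hk ht h
  exact ⟨(he.toOpenPartialHomeomorph (F m)).source,
    (he.toOpenPartialHomeomorph (F m)).open_source.mem_nhds he.mem_toOpenPartialHomeomorph_source,
    (he.toOpenPartialHomeomorph (F m)).injOn⟩

end maps

end Pool.Agent.H423.SH
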