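import Pool.Agent.H423.SH.Homo

/-! # Weighted power sums: there are `k!` zeros -/

set_option autoImplicit false

open Filter Topology

namespace Pool.Agent.H423.SH

section maps

variable {k : ℕ} (m : Fin k → ℕ)

/-- the power sums without the constant -/
noncomputable def Psm (p : ℝ × (Fin k → ℂ)) (j : Fin k) : ℂ :=
  ∑ i, wt m (p.1 : ℂ) i * p.2 i ^ ((j : ℕ) + 1)

lemma Psm_cont : Continuous (Psm m) := by
  unfold Psm wt
  fun_prop

lemma Psm_ne (hm : ∀ i, 1 ≤ m i) {t : ℝ} (ht : t ∈ Set.Icc (0 : ℝ) 1)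
    {z : Fin k → ℂ} (hz : Psm m (t, z) = 0) : z = 0 := by
  classical
  refine eq_zero (d := k) (wt_sum m hm ht) (fun j hj1 hj2 => ?_) ?_
  · have h1 := congrFun hz ⟨j - 1, by omega⟩
    unfold Psm at h1
    simp only at h1
    rw [show j - 1 + 1 = j by omega] at h1
    exact h1
  · refine (Finset.card_le_card (Finset.erase_subset _ _)).trans (Finset.card_image_le.trans ?_)
    rw [Finset.card_univ, Fintype.card_fin]

lemma Psm_smul {t : ℝ} (r : ℂ) (z : Fin k → ℂ) (j : Fin k) :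
    Psm m (t, r • z) j = r ^ ((j : ℕ) + 1) * Psm m (t, z) j := by
  unfold Psm
  simp only [Pi.smul_apply, smul_eq_mul, mul_pow, Finset.mul_sum]
  refine Finset.sum_congr rfl fun i _ => ?_
  ring

lemma Psm_of_G {t : ℝ} {z : Fin k → ℂ} (h : G m ((t : ℂ), z) = 0) (j : Fin k) :
    ‖Psm m (t, z) j‖ ≤ k := by
  have h1 := congrFun h j
  unfold G at h1
  simp only [Pi.zero_apply] at h1
  rw [sub_eq_zero] at h1
  have h2 : Psm m (t, z) j = (if (j : ℕ) + 1 = k then (k : ℂ) else 0) := h1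
  rw [h2]
  by_cases hj : (j : ℕ) + 1 = k
  · rw [if_pos hj, Complex.norm_natCast]
  · rw [if_neg hj, norm_zero]
    positivity

/-- the zeros are bounded -/
lemma bounded (hm : ∀ i, 1 ≤ m i) (hk : 1 ≤ k) : ∃ B : ℝ, ∀ t ∈ Set.Icc (0 : ℝ) 1,
    ∀ z : Fin k → ℂ, G m ((t : ℂ), z) = 0 → ‖z‖ ≤ B := by
  have hne : (Set.Icc (0 : ℝ) 1 ×ˢ Metric.sphere (0 : Fin k → ℂ) 1).Nonempty := by
    refine ⟨(0, fun _ => 1), ⟨le_rfl, zero_le_one⟩, ?_⟩
    rw [mem_sphere_zero_iff_norm]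
    have : Nonempty (Fin k) := ⟨⟨0, by omega⟩⟩
    show ‖(fun _ : Fin k => (1 : ℂ))‖ = 1
    rw [pi_norm_const, norm_one]
  have hcomp : IsCompact (Set.Icc (0 : ℝ) 1 ×ˢ Metric.sphere (0 : Fin k → ℂ) 1) :=
    isCompact_Icc.prod (isCompact_sphere _ _)
  obtain ⟨⟨t0, z0⟩, ⟨ht0, hz0⟩, hmin⟩ := hcomp.exists_isMinOn hne
    ((Psm_cont m).norm.continuousOn)
  simp only at ht0 hz0
  have hpos : 0 < ‖Psm m (t0, z0)‖ := by
    rw [norm_pos_iff]
    intro h0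
    have := Psm_ne m hm ht0 h0
    rw [this, mem_sphere_zero_iff_norm, norm_zero] at hz0
    exact zero_ne_one hz0
  obtain ⟨c, hc⟩ : ∃ c : ℝ, c = ‖Psm m (t0, z0)‖ := ⟨_, rfl⟩
  rw [← hc] at hpos
  refine ⟨max 1 (k / c), fun t ht z hz => ?_⟩
  by_cases h1 : ‖z‖ ≤ 1
  · exact h1.trans (le_max_left _ _)
  push Not at h1
  have hz0' : (0 : ℝ) < ‖z‖ := by linarith
  obtain ⟨u, hu⟩ : ∃ u : Fin k → ℂ, u = ((‖z‖⁻¹ : ℝ) : ℂ) • z := ⟨_, rfl⟩
  have hun : ‖u‖ = 1 := by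
    rw [hu, norm_smul, Complex.norm_real, Real.norm_of_nonneg (by positivity),
      inv_mul_cancel₀ hz0'.ne']
  have h2 : c ≤ ‖Psm m (t, u)‖ := by
    rw [hc]
    exact hmin ⟨ht, by rw [mem_sphere_zero_iff_norm]; exact hun⟩
  have h3 : ‖Psm m (t, u)‖ ≤ ‖z‖⁻¹ * k := by
    refine (pi_norm_le_iff_of_nonneg (by positivity)).2 fun j => ?_
    rw [hu, Psm_smul, norm_mul, norm_pow, Complex.norm_real, Real.norm_of_nonneg (by positivity)]
    refine mul_le_mul ?_ (Psm_of_G m hz j) (norm_nonneg _) (by positivity)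
    have h5 : ‖z‖⁻¹ ≤ 1 := inv_le_one_of_one_le₀ h1.le
    calc ‖z‖⁻¹ ^ ((j : ℕ) + 1) ≤ ‖z‖⁻¹ ^ 1 :=
          pow_le_pow_of_le_one (by positivity) h5 (by omega)
      _ = ‖z‖⁻¹ := pow_one _
  refine le_trans ?_ (le_max_right _ _)
  rw [le_div_iff₀ hpos]
  have h4 : c ≤ ‖z‖⁻¹ * k := h2.trans h3
  calc ‖z‖ * c ≤ ‖z‖ * (‖z‖⁻¹ * k) := mul_le_mul_of_nonneg_left h4 hz0'.le
    _ = k := by rw [← mul_assoc, mul_inv_cancel₀ hz0'.ne', one_mul]

lemma G_cont : Continuous (G m) := by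
  unfold G wt
  fun_prop

/-- there are `k!` different zeros at time `t` -/
def Many (t : ℝ) : Prop :=
  ∃ Z : Equiv.Perm (Fin k) → (Fin k → ℂ), Function.Injective Z ∧ ∀ π, G m ((t : ℂ), Z π) = 0

lemma closed (hm : ∀ i, 1 ≤ m i) (hk : 1 ≤ k) : IsClosed ({t | Many m t} ∩ Set.Icc (0 : ℝ) 1) := by
  obtain ⟨B, hB⟩ := bounded m hm hk
  refine IsSeqClosed.isClosed ?_
  intro s t hs hst
  have ht : t ∈ Set.Icc (0 : ℝ) 1 := isClosed_Icc.mem_of_tendsto hst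
    (Eventually.of_forall fun n => (hs n).2)
  refine ⟨?_, ht⟩
  choose Z hZ1 hZ2 using fun n => (hs n).1
  have hbd : ∀ n, Z n ∈ Metric.closedBall (0 : Equiv.Perm (Fin k) → (Fin k → ℂ)) (max B 0) := by
    intro n
    rw [mem_closedBall_zero_iff]
    refine (pi_norm_le_iff_of_nonneg (le_max_right _ _)).2 fun π => ?_
    exact (hB _ (hs n).2 _ (hZ2 n π)).trans (le_max_left _ _)
  obtain ⟨Z', -, φ, hφ, hlim⟩ := (isCompact_closedBall _ _).tendsto_subseq hbd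
  have hlim' : ∀ π, Tendsto (fun n => Z (φ n) π) atTop (𝓝 (Z' π)) := fun π =>
    (tendsto_pi_nhds.1 hlim) π
  have hst' : Tendsto (fun n => s (φ n)) atTop (𝓝 t) := hst.comp hφ.tendsto_atTop
  have hpt : ∀ π, Tendsto (fun n => (((s (φ n) : ℝ) : ℂ), Z (φ n) π)) atTop
      (𝓝 ((t : ℂ), Z' π)) := by
    intro π
    refine Tendsto.prodMk_nhds ?_ (hlim' π)
    exact (Complex.continuous_ofReal.tendsto t).comp hst'
  have hz : ∀ π, G m ((t : ℂ), Z' π) = 0 := by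
    intro π
    have h1 : Tendsto (fun n => G m (((s (φ n) : ℝ) : ℂ), Z (φ n) π)) atTop
        (𝓝 (G m ((t : ℂ), Z' π))) := ((G_cont m).tendsto _).comp (hpt π)
    have h2 : (fun n => G m (((s (φ n) : ℝ) : ℂ), Z (φ n) π)) = fun _ => 0 := by
      funext n
      exact hZ2 _ π
    rw [h2] at h1
    exact (tendsto_nhds_unique h1 tendsto_const_nhds)
  refine ⟨Z', ?_, hz⟩
  intro π π' hππ
  by_contra hne
  obtain ⟨V, hV, hinj⟩ := local_inj m hm hk ht (hz π)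
  have h1 : ∀ᶠ n in atTop, (((s (φ n) : ℝ) : ℂ), Z (φ n) π) ∈ V := (hpt π) hV
  have h2 : ∀ᶠ n in atTop, (((s (φ n) : ℝ) : ℂ), Z (φ n) π') ∈ V := by
    have := hpt π'
    rw [← hππ] at this
    exact this hV
  obtain ⟨n, hn1, hn2⟩ := (Filter.Eventually.and h1 h2).exists
  have h3 : F m (((s (φ n) : ℝ) : ℂ), Z (φ n) π) = F m (((s (φ n) : ℝ) : ℂ), Z (φ n) π') := by
    unfold F
    rw [hZ2, hZ2]
  have h4 := hinj hn1 hn2 h3
  rw [Prod.mk.injEq] at h4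
  exact hne (hZ1 _ h4.2)

lemma opened (hm : ∀ i, 1 ≤ m i) (hk : 1 ≤ k) {t : ℝ} (ht : t ∈ Set.Icc (0 : ℝ) 1)
    (h : Many m t) : ∀ᶠ t' in 𝓝 t, Many m t' := by
  obtain ⟨Z, hZ1, hZ2⟩ := h
  -- disjoint neighbourhoods
  obtain ⟨U, hU1, hU2⟩ : ∃ U : Equiv.Perm (Fin k) → Set (Fin k → ℂ), (∀ π, U π ∈ 𝓝 (Z π)) ∧
      ∀ π π', π ≠ π' → Disjoint (U π) (U π') := by
    obtain ⟨U, h1, h2⟩ := (Set.finite_range Z).t2_separation
    refine ⟨fun π => U (Z π), fun π => (h1 _).2.mem_nhds (h1 _).1, fun π π' hne => ?_⟩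
    exact h2 (Set.mem_range_self π) (Set.mem_range_self π') fun h => hne (hZ1 h)
  have h2 : ∀ᶠ t' : ℝ in 𝓝 t, ∀ π, ∃ z' ∈ U π, G m ((t' : ℂ), z') = 0 :=
    eventually_all.2 fun π => local_open m hm hk ht (hZ2 π) (hU1 π)
  filter_upwards [h2] with t' ht'
  choose Z' hZ'1 hZ'2 using ht'
  refine ⟨Z', fun π π' hππ => ?_, hZ'2⟩
  by_contra hne
  exact Set.disjoint_left.1 (hU2 π π' hne) (hZ'1 π) (by rw [hππ]; exact hZ'1 π')

lemma start (hk : 1 ≤ k) : Many m 0 := by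
  have hk0 : k ≠ 0 := by omega
  have hζ := Complex.isPrimitiveRoot_exp k hk0
  obtain ⟨ζ, hζe⟩ : ∃ ζ : ℂ, ζ = Complex.exp (2 * Real.pi * Complex.I / k) := ⟨_, rfl⟩
  rw [← hζe] at hζ
  have hw : ∀ i, wt m ((0 : ℝ) : ℂ) i = 1 := by
    intro i
    unfold wt
    simp
  have hinj : Function.Injective (fun i : Fin k => ζ ^ (i : ℕ)) := by
    intro i j hij
    exact Fin.ext (hζ.pow_inj i.2 j.2 hij)
  refine ⟨fun π i => ζ ^ ((π i : Fin k) : ℕ), ?_, fun π => ?_⟩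
  · intro π π' hππ
    refine Equiv.ext fun i => ?_
    exact hinj (congrFun hππ i)
  · have hsum : ∀ j : ℕ, ∑ i, (ζ ^ ((π i : Fin k) : ℕ)) ^ j = ∑ i ∈ Finset.range k, (ζ ^ j) ^ i := by
      intro j
      rw [Equiv.sum_comp π (fun i : Fin k => (ζ ^ (i : ℕ)) ^ j), ← Fin.sum_univ_eq_sum_range
        (fun i => (ζ ^ j) ^ i)]
      refine Finset.sum_congr rfl fun i _ => ?_
      rw [← pow_mul, ← pow_mul, mul_comm]
    refine G_zero_of m (fun j hj1 hj2 => ?_) ?_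
    · simp only [hw, one_mul]
      rw [hsum]
      have h1 : ζ ^ j ≠ 1 := hζ.pow_ne_one_of_pos_of_lt (by omega) hj2
      have h2 : (ζ ^ j) ^ k = 1 := by rw [← pow_mul, mul_comm, pow_mul, hζ.pow_eq_one, one_pow]
      have h3 := mul_neg_geom_sum (ζ ^ j) k
      rw [h2, sub_self] at h3
      exact (mul_eq_zero.1 h3).resolve_left (sub_ne_zero.2 h1.symm)
    · simp only [hw, one_mul]
      rw [hsum, hζ.pow_eq_one]
      simp

/-- **There are `k!` different zeros.** -/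
theorem many (hm : ∀ i, 1 ≤ m i) (hk : 1 ≤ k) : Many m 1 := by
  have h1 : Set.Icc (0 : ℝ) 1 ⊆ {t | Many m t} := by
    refine IsClosed.Icc_subset_of_forall_mem_nhdsWithin (closed m hm hk) (start m hk) ?_
    rintro t ⟨ht1, ht2⟩
    exact nhdsWithin_le_nhds (opened m hm hk ⟨ht2.1, ht2.2.le⟩ ht1)
  exact h1 ⟨zero_le_one, le_rfl⟩

/-- the zeros at time one -/
theorem exists_sols (hm : ∀ i, 1 ≤ m i) (hk : 1 ≤ k) :
    ∃ Z : Equiv.Perm (Fin k) → (Fin k → ℂ), Function.Injective Z ∧ ∀ π,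
      (∀ j, 1 ≤ j → j < k → ∑ i, (m i : ℂ) * Z π i ^ j = 0) ∧ ∑ i, (m i : ℂ) * Z π i ^ k = k := by
  obtain ⟨Z, hZ1, hZ2⟩ := many m hm hk
  refine ⟨Z, hZ1, fun π => ?_⟩
  have hw : ∀ i, wt m ((1 : ℝ) : ℂ) i = m i := by
    intro i
    unfold wt
    push_cast
    ring
  have h := G_zero m (hZ2 π) hk
  simp only [hw] at h
  exact h

end maps

end Pool.Agent.H423.SH
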