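import Mathlib

/-! # The polynomials `1 - ∏ (1 - z_i X) ^ (m_i)` -/

set_option autoImplicit false

open Polynomial

namespace Pool.Agent.H423.SH

section pol

variable {L : Type*} [Field L] {k : ℕ} (m : Fin k → ℕ) (z : Fin k → L)

/-- the polynomial -/
noncomputable def gp : L[X] := ∏ i, (1 - C (z i) * X) ^ m i

/-- its radical -/
noncomputable def rp : L[X] := ∏ i, (1 - C (z i) * X)

lemma gp_eval (x : L) : (gp m z).eval x = ∏ i, (1 - z i * x) ^ m i := by
  unfold gp
  rw [eval_prod]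
  refine Finset.prod_congr rfl fun i _ => ?_
  simp

lemma gp_zero : (gp m z).eval 0 = 1 := by
  rw [gp_eval]
  simp

lemma rp_zero : (rp z).eval 0 = 1 := by
  unfold rp
  rw [eval_prod]
  simp

lemma lin_ne (a : L) : (1 - C a * X : L[X]) ≠ 0 := by
  intro h
  have := congrArg (Polynomial.eval 0) h
  simp at this

lemma gp_ne : gp m z ≠ 0 :=
  Finset.prod_ne_zero_iff.2 fun _ _ => pow_ne_zero _ (lin_ne _)

lemma rp_ne : rp z ≠ 0 :=
  Finset.prod_ne_zero_iff.2 fun _ _ => lin_ne _

lemma lin_deg {a : L} (ha : a ≠ 0) : (1 - C a * X : L[X]).natDegree = 1 := by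
  rw [show (1 - C a * X : L[X]) = C (-a) * X + C 1 by simp; ring]
  exact natDegree_linear (neg_ne_zero.2 ha)

lemma gp_deg (hz : ∀ i, z i ≠ 0) : (gp m z).natDegree = ∑ i, m i := by
  unfold gp
  rw [natDegree_prod _ _ fun i _ => pow_ne_zero _ (lin_ne _)]
  refine Finset.sum_congr rfl fun i _ => ?_
  rw [natDegree_pow, lin_deg (hz i), mul_one]

lemma rp_deg (hz : ∀ i, z i ≠ 0) : (rp z).natDegree = k := by
  unfold rp
  rw [natDegree_prod _ _ fun i _ => lin_ne _, Finset.sum_congr rfl fun i _ => lin_deg (hz i)]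
  simp

/-- the derivative -/
lemma deriv_mul : derivative (gp m z) * rp z =
    gp m z * -∑ i, (m i : L[X]) * C (z i) * ∏ j ∈ Finset.univ.erase i, (1 - C (z j) * X) := by
  classical
  unfold gp
  rw [derivative_prod_finset, Finset.sum_mul, ← Finset.sum_neg_distrib, Finset.mul_sum]
  refine Finset.sum_congr rfl fun i _ => ?_
  have h1 : rp z = (1 - C (z i) * X) * ∏ j ∈ Finset.univ.erase i, (1 - C (z j) * X) := by
    unfold rp
    exact (Finset.mul_prod_erase _ (fun j => (1 - C (z j) * X : L[X])) (Finset.mem_univ i)).symm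
  have h2 : ∏ j, (1 - C (z j) * X) ^ m j =
      (1 - C (z i) * X) ^ m i * ∏ j ∈ Finset.univ.erase i, (1 - C (z j) * X) ^ m j :=
    (Finset.mul_prod_erase _ (fun j => (1 - C (z j) * X : L[X]) ^ m j) (Finset.mem_univ i)).symm
  rw [h1, h2, derivative_pow]
  have h3 : derivative (1 - C (z i) * X) = -C (z i) := by
    simp
  rw [h3]
  have h4 : (m i : L[X]) * (1 - C (z i) * X) ^ (m i - 1) * (1 - C (z i) * X) =
      (m i : L[X]) * (1 - C (z i) * X) ^ m i := by
    rcases Nat.eq_zero_or_pos (m i) with h0 | h0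
    · rw [h0]; simp
    · rw [mul_assoc, ← pow_succ, Nat.sub_add_cancel h0]
  have h5 : C ((m i : ℕ) : L) = (m i : L[X]) := by simp
  rw [h5]
  linear_combination (-(∏ x ∈ Finset.univ.erase i, (1 - C (z x) * X) ^ m x) * C (z i) *
    (∏ j ∈ Finset.univ.erase i, (1 - C (z j) * X))) * h4

/-- the sum is divisible by `X ^ (k - 1)` -/
lemma dvd_sum (h : ∀ j, 1 ≤ j → j < k → ∑ i, (m i : L) * z i ^ j = 0) :
    (X : L[X]) ^ (k - 1) ∣
      ∑ i, (m i : L[X]) * C (z i) * ∏ j ∈ Finset.univ.erase i, (1 - C (z j) * X) := by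
  classical
  have h1 : ∀ i, ∏ j ∈ Finset.univ.erase i, (1 - C (z j) * X) =
      rp z * ∑ l ∈ Finset.range (k - 1), (C (z i) * X) ^ l +
      (∏ j ∈ Finset.univ.erase i, (1 - C (z j) * X)) * (C (z i) * X) ^ (k - 1) := by
    intro i
    have h2 : rp z = (∏ j ∈ Finset.univ.erase i, (1 - C (z j) * X)) * (1 - C (z i) * X) := by
      unfold rp
      exact (Finset.prod_erase_mul _ (fun j => (1 - C (z j) * X : L[X])) (Finset.mem_univ i)).symm
    rw [h2, mul_assoc, mul_neg_geom_sum]
    ring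
  have h2 : ∑ i, (m i : L[X]) * C (z i) * ∏ j ∈ Finset.univ.erase i, (1 - C (z j) * X) =
      X ^ (k - 1) * ∑ i, (m i : L[X]) * C (z i) *
        ((∏ j ∈ Finset.univ.erase i, (1 - C (z j) * X)) * C (z i) ^ (k - 1)) := by
    have h3 : ∀ i, (m i : L[X]) * C (z i) * ∏ j ∈ Finset.univ.erase i, (1 - C (z j) * X) =
        rp z * ∑ l ∈ Finset.range (k - 1), C ((m i : L) * z i ^ (l + 1)) * X ^ l +
        X ^ (k - 1) * ((m i : L[X]) * C (z i) *
        ((∏ j ∈ Finset.univ.erase i, (1 - C (z j) * X)) * C (z i) ^ (k - 1))) := by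
      intro i
      have h4 : ∑ l ∈ Finset.range (k - 1), C ((m i : L) * z i ^ (l + 1)) * X ^ l =
          (m i : L[X]) * C (z i) * ∑ l ∈ Finset.range (k - 1), (C (z i) * X) ^ l := by
        rw [Finset.mul_sum]
        refine Finset.sum_congr rfl fun l _ => ?_
        rw [C_mul, C_pow, C_eq_natCast, mul_pow, pow_succ]
        ring
      rw [h4]
      nth_rewrite 1 [h1 i]
      rw [mul_pow]
      ring
    rw [Finset.sum_congr rfl fun i _ => h3 i, Finset.sum_add_distrib, ← Finset.mul_sum,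
      ← Finset.mul_sum, Finset.sum_comm]
    have h5 : ∑ l ∈ Finset.range (k - 1), ∑ i, C ((m i : L) * z i ^ (l + 1)) * X ^ l =
        (0 : L[X]) := by
      refine Finset.sum_eq_zero fun l hl => ?_
      rw [Finset.mem_range] at hl
      rw [← Finset.sum_mul, ← map_sum, h (l + 1) (by omega) (by omega), C_0, zero_mul]
    rw [h5, mul_zero, zero_add]
  rw [h2]
  exact dvd_mul_right _ _

/-- **The order of vanishing.** -/
lemma dvd [CharZero L] (h : ∀ j, 1 ≤ j → j < k → ∑ i, (m i : L) * z i ^ j = 0) :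
    (X : L[X]) ^ k ∣ 1 - gp m z := by
  have h1 : (X : L[X]) ^ (k - 1) ∣ derivative (gp m z) * rp z := by
    rw [deriv_mul]
    exact Dvd.dvd.mul_left ((dvd_neg).2 (dvd_sum m z h)) _
  have h2 : ¬ (X : L[X]) ∣ rp z := by
    rw [X_dvd_iff, coeff_zero_eq_eval_zero, rp_zero]
    exact one_ne_zero
  have h3 := prime_X.pow_dvd_of_dvd_mul_right (k - 1) h2 h1
  rw [X_pow_dvd_iff] at h3 ⊢
  intro d hd
  rcases Nat.eq_zero_or_pos d with rfl | hd0
  · rw [coeff_zero_eq_eval_zero, eval_sub, gp_zero, eval_one, sub_self]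
  · have h4 := h3 (d - 1) (by omega)
    rw [coeff_derivative, Nat.sub_add_cancel hd0] at h4
    have h5 : (((d - 1 : ℕ) : L) + 1) ≠ 0 := Nat.cast_add_one_ne_zero _
    rw [coeff_sub, (mul_eq_zero.1 h4).resolve_right h5, coeff_one, if_neg (by omega), sub_zero]

/-- the roots -/
lemma count_roots' [DecidableEq L] (hz : ∀ i, z i ≠ 0) (a : L) :
    (gp m z).roots.count a = ∑ i, if a = (z i)⁻¹ then m i else 0 := by
  unfold gp
  rw [roots_prod _ _ (gp_ne m z), Multiset.count_bind]
  rw [← Finset.sum_eq_multiset_sum]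
  refine Finset.sum_congr rfl fun i _ => ?_
  have h1 : (1 - C (z i) * X : L[X]) = C (-(z i)) * (X - C (z i)⁻¹) := by
    rw [mul_sub, ← C_mul, neg_mul, mul_inv_cancel₀ (hz i)]
    simp
    ring
  rw [roots_pow, h1, roots_C_mul _ (neg_ne_zero.2 (hz i)), roots_X_sub_C, Multiset.count_nsmul,
    Multiset.count_singleton]
  by_cases h : a = (z i)⁻¹
  · rw [if_pos h, if_pos h, mul_one]
  · rw [if_neg h, if_neg h, mul_zero]

variable {m z}

/-- equal polynomials -/
lemma gp_inj {z' : Fin k → L} (hm : ∀ i, 1 ≤ m i) (hz : Function.Injective z)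
    (hz' : Function.Injective z') (hz0 : ∀ i, z i ≠ 0) (hz0' : ∀ i, z' i ≠ 0)
    (h : gp m z = gp m z') : ∃ σ : Equiv.Perm (Fin k), ∀ i, z' (σ i) = z i ∧ m (σ i) = m i := by
  classical
  have h1 : ∀ i, ∃ j, z' j = z i ∧ m j = m i := by
    intro i
    have h2 := count_roots' m z hz0 (z i)⁻¹
    rw [h, count_roots' m z' hz0'] at h2
    have h3 : ∑ j, (if (z i)⁻¹ = (z j)⁻¹ then m j else 0) = m i := by
      rw [Finset.sum_eq_single i]
      · rw [if_pos rfl]
      · intro j _ hj
        rw [if_neg]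
        intro h4
        exact hj (hz (inv_injective h4)).symm
      · intro h4
        exact absurd (Finset.mem_univ i) h4
    rw [h3] at h2
    by_cases h5 : ∃ j, z' j = z i
    · obtain ⟨j, hj⟩ := h5
      refine ⟨j, hj, ?_⟩
      rw [← h2, Finset.sum_eq_single j]
      · rw [if_pos (by rw [hj])]
      · intro l _ hl
        rw [if_neg]
        intro h4
        exact hl (hz' ((inv_injective h4).symm.trans hj.symm))
      · intro h4
        exact absurd (Finset.mem_univ j) h4
    · exfalso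
      push Not at h5
      rw [Finset.sum_eq_zero] at h2
      · have := hm i
        omega
      · intro j _
        rw [if_neg]
        intro h4
        exact h5 j (inv_injective h4).symm
  choose τ hτ using h1
  have hinj : Function.Injective τ := by
    intro i j hij
    apply hz
    rw [← (hτ i).1, ← (hτ j).1, hij]
  exact ⟨Equiv.ofBijective τ (Finite.injective_iff_bijective.1 hinj), fun i => hτ i⟩

end pol

end Pool.Agent.H423.SH
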