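import Pool.Agent.H423.SH.Desc
import Pool.Agent.H423.SH.Pol

/-! # Many Belyi polynomials of the same degree -/

set_option autoImplicit false

open Polynomial

namespace Pool.Agent.H423.SH

section fam

variable {k : ℕ} {m : Fin k → ℕ}

lemma sums_ne {L : Type*} [Field L] [CharZero L] (hm : ∀ i, 1 ≤ m i) (S : Finset (Fin k))
    (hS : S.Nonempty) : ∑ i ∈ S, (m i : L) ≠ 0 := by
  rw [← Nat.cast_sum]
  refine Nat.cast_ne_zero.2 ?_
  have : 0 < ∑ i ∈ S, m i := Finset.sum_pos (fun i _ => hm i) hS
  omega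

/-- the properties of one polynomial of the family -/
structure Good {L : Type*} [Field L] (D : ℕ) (f : L[X]) : Prop where
  deg : f.natDegree = D
  zero : f.eval 0 = 0
  one : f.eval 1 = 1
  rad : ∃ (r : L[X]) (N : ℕ), r ∣ f * (f - 1) ∧ f * (f - 1) ∣ r ^ N ∧ r.natDegree ≤ D + 1

theorem good_of {L : Type*} [Field L] [CharZero L] (hm : ∀ i, 1 ≤ m i) (hk : 1 ≤ k) {w : Fin k → L}
    (hw0 : ∀ i, w i ≠ 0) (h : ∀ j, 1 ≤ j → j < k → ∑ i, (m i : L) * w i ^ j = 0)
    {i0 : Fin k} (hi0 : w i0 = 1) {D : ℕ} (hD : ∑ i, m i = D) : Good D (1 - gp m w) := by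
  have hDpos : 0 < D := by
    rw [← hD]
    exact Finset.sum_pos (fun i _ => hm i) ⟨i0, Finset.mem_univ _⟩
  have hdeg : (1 - gp m w).natDegree = D := by
    rw [natDegree_sub_eq_right_of_natDegree_lt]
    · rw [gp_deg m w hw0, hD]
    · rw [gp_deg m w hw0, hD, natDegree_one]
      exact hDpos
  obtain ⟨q, hq⟩ := dvd m w h
  have hne : (1 - gp m w) ≠ 0 := by
    intro h0
    rw [h0, natDegree_zero] at hdeg
    omega
  have hq0 : q ≠ 0 := by
    rintro rfl
    rw [mul_zero] at hq
    exact hne hq
  have hqdeg : k + q.natDegree = D := by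
    rw [← hdeg, hq, natDegree_mul (pow_ne_zero _ X_ne_zero) hq0, natDegree_X_pow]
  refine ⟨hdeg, ?_, ?_, X * q * rp w, k + D, ?_, ?_, ?_⟩
  · rw [eval_sub, gp_zero, eval_one, sub_self]
  · rw [eval_sub, eval_one, gp_eval, Finset.prod_eq_zero (Finset.mem_univ i0), sub_zero]
    rw [hi0, one_mul, sub_self, zero_pow]
    have := hm i0
    omega
  · rw [show (1 - gp m w - 1 : L[X]) = -gp m w by ring]
    refine mul_dvd_mul ?_ ?_
    · rw [hq]
      refine mul_dvd_mul_right ?_ _
      exact dvd_pow_self X (by omega)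
    · rw [dvd_neg]
      unfold rp gp
      refine Finset.prod_dvd_prod_of_dvd _ _ fun i _ => ?_
      have := hm i
      exact dvd_pow_self _ (by omega)
  · rw [show (1 - gp m w - 1 : L[X]) = -gp m w by ring, mul_pow]
    refine mul_dvd_mul ?_ ?_
    · rw [hq, mul_pow]
      refine mul_dvd_mul (pow_dvd_pow _ (by omega)) (dvd_pow_self _ (by omega))
    · rw [neg_dvd]
      have h1 : gp m w ∣ rp w ^ D := by
        unfold rp gp
        rw [← Finset.prod_pow]
        refine Finset.prod_dvd_prod_of_dvd _ _ fun i _ => ?_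
        refine pow_dvd_pow _ ?_
        rw [← hD]
        exact Finset.single_le_sum (f := m) (fun _ _ => Nat.zero_le _) (Finset.mem_univ i)
      exact h1.trans (pow_dvd_pow _ (by omega))
  · rw [natDegree_mul (mul_ne_zero X_ne_zero hq0) (rp_ne w), natDegree_mul X_ne_zero hq0,
      natDegree_X, rp_deg w hw0]
    omega

/-- **Many Belyi polynomials**, general weights -/
theorem exists_family (hm : ∀ i, 1 ≤ m i) (hk : 1 ≤ k) {D : ℕ} (hD : ∑ i, m i = D) :
    ∃ (K : Type) (_ : Field K) (_ : NumberField K) (P : Finset K[X]),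
      k.factorial ≤ k * Fintype.card {σ : Equiv.Perm (Fin k) // m ∘ σ = m} * P.card ∧
      ∀ f ∈ P, Good D f := by
  classical
  obtain ⟨K, i1, i2, Z, hZ1, hZ2⟩ := exists_field m hm hk
  have hkK : (k : K) ≠ 0 := Nat.cast_ne_zero.2 (by omega)
  have hZ3 : ∀ π, Function.Injective (Z π) ∧ ∀ i, Z π i ≠ 0 := by
    intro π
    refine inj_of (w := fun i => (m i : K)) (sums_ne hm) (hZ2 π).1 ?_ hk
    rw [(hZ2 π).2]
    exact hkK
  obtain ⟨i0, -⟩ : ∃ i0 : Fin k, i0 = ⟨0, by omega⟩ := ⟨_, rfl⟩
  obtain ⟨w, hw⟩ : ∃ w : Equiv.Perm (Fin k) → (Fin k → K), w = fun π i => Z π i / Z π i0 :=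
    ⟨_, rfl⟩
  have hw' : ∀ π i, w π i = Z π i / Z π i0 := fun π i => by rw [hw]
  have hw0 : ∀ π i, w π i ≠ 0 := fun π i => by
    rw [hw']
    exact div_ne_zero ((hZ3 π).2 i) ((hZ3 π).2 i0)
  have hwi : ∀ π, Function.Injective (w π) := by
    intro π i j hij
    rw [hw', hw'] at hij
    exact (hZ3 π).1 ((div_left_inj' ((hZ3 π).2 i0)).1 hij)
  have hw1 : ∀ π, w π i0 = 1 := fun π => by
    rw [hw']
    exact div_self ((hZ3 π).2 i0)
  have hsum : ∀ π j, ∑ i, (m i : K) * w π i ^ j = (∑ i, (m i : K) * Z π i ^ j) / Z π i0 ^ j := by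
    intro π j
    rw [Finset.sum_div]
    refine Finset.sum_congr rfl fun i _ => ?_
    rw [hw', div_pow, mul_div_assoc]
  have heq : ∀ π j, 1 ≤ j → j < k → ∑ i, (m i : K) * w π i ^ j = 0 := by
    intro π j h1 h2
    rw [hsum, (hZ2 π).1 j h1 h2, zero_div]
  obtain ⟨fam, hfam⟩ : ∃ fam : Equiv.Perm (Fin k) → K[X], fam = fun π => 1 - gp m (w π) :=
    ⟨_, rfl⟩
  refine ⟨K, i1, i2, Finset.univ.image fam, ?_, ?_⟩
  · have hfib : ∀ a ∈ Finset.univ.image fam,
        (Finset.univ.filter fun π => fam π = a).card ≤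
          k * Fintype.card {σ : Equiv.Perm (Fin k) // m ∘ σ = m} := by
      intro a ha
      obtain ⟨π0, -, rfl⟩ := Finset.mem_image.1 ha
      have h1 : ∀ π, ∃ σ : Equiv.Perm (Fin k), fam π = fam π0 →
          ∀ i, w π (σ i) = w π0 i ∧ m (σ i) = m i := by
        intro π
        by_cases h : fam π = fam π0
        · have h2 : gp m (w π0) = gp m (w π) := by
            rw [hfam] at h
            simp only at h
            exact (sub_right_injective h).symm
          obtain ⟨σ, hσ⟩ := gp_inj hm (hwi π0) (hwi π) (hw0 π0) (hw0 π) h2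
          exact ⟨σ, fun _ => hσ⟩
        · exact ⟨1, fun h' => absurd h' h⟩
      choose s hs using h1
      have hmaps : ∀ π ∈ Finset.univ.filter fun π => fam π = fam π0,
          (Z π i0 / Z π0 i0, s π) ∈ (nthRoots k (1 : K)).toFinset ×ˢ
            (Finset.univ.filter fun σ : Equiv.Perm (Fin k) => m ∘ σ = m) := by
        intro π hπ
        rw [Finset.mem_filter] at hπ
        have h2 := hs π hπ.2
        rw [Finset.mem_product]
        constructor
        · rw [Multiset.mem_toFinset, mem_nthRoots (by omega)]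
          have h3 : ∑ i, (m i : K) * w π i ^ k = ∑ i, (m i : K) * w π0 i ^ k := by
            rw [← Equiv.sum_comp (s π) (fun i => (m i : K) * w π i ^ k)]
            refine Finset.sum_congr rfl fun i _ => ?_
            rw [(h2 i).1, (h2 i).2]
          rw [hsum, hsum, (hZ2 π).2, (hZ2 π0).2, div_eq_div_iff
            (pow_ne_zero _ ((hZ3 π).2 i0)) (pow_ne_zero _ ((hZ3 π0).2 i0))] at h3
          have h4 := mul_left_cancel₀ hkK h3
          rw [div_pow, h4, div_self (pow_ne_zero _ ((hZ3 π).2 i0))]
        · rw [Finset.mem_filter]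
          refine ⟨Finset.mem_univ _, ?_⟩
          funext i
          exact (h2 i).2
      have hinj : Set.InjOn (fun π => (Z π i0 / Z π0 i0, s π))
          (Finset.univ.filter fun π => fam π = fam π0 : Finset (Equiv.Perm (Fin k))) := by
        intro π hπ π' hπ' h
        rw [Finset.mem_coe, Finset.mem_filter] at hπ hπ'
        rw [Prod.mk.injEq] at h
        obtain ⟨h3, h4⟩ := h
        have h5 : Z π i0 = Z π' i0 := (div_left_inj' ((hZ3 π0).2 i0)).1 h3
        apply hZ1
        funext i
        have h6 := (hs π hπ.2 ((s π).symm i)).1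
        have h7 := (hs π' hπ'.2 ((s π).symm i)).1
        rw [← h4, ← h6, Equiv.apply_symm_apply, hw', hw', h5] at h7
        exact ((div_left_inj' ((hZ3 π').2 i0)).1 h7).symm
      have h8 := Finset.card_le_card_of_injOn _ hmaps hinj
      refine h8.trans ?_
      rw [Finset.card_product]
      refine Nat.mul_le_mul ?_ ?_
      · exact (Multiset.toFinset_card_le _).trans (card_nthRoots _ _)
      · rw [Fintype.card_subtype]
    have h9 := Finset.card_le_mul_card_image (f := fam) Finset.univ _ hfib
    rw [Finset.card_univ, Fintype.card_perm, Fintype.card_fin] at h9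
    exact h9
  · intro f hf
    obtain ⟨π, -, rfl⟩ := Finset.mem_image.1 hf
    rw [hfam]
    exact good_of hm hk (hw0 π) (heq π) (hw1 π) hD

end fam

/-- **Exponentially many Belyi polynomials of degree `3 n`.** -/
theorem exists_many (n : ℕ) (hn : 1 ≤ n) :
    ∃ (K : Type) (_ : Field K) (_ : NumberField K) (P : Finset K[X]),
      n.centralBinom ≤ 2 * n * P.card ∧ ∀ f ∈ P, Good (3 * n) f := by
  classical
  obtain ⟨b, hb⟩ : ∃ b : Fin (2 * n) → Bool, b = fun i : Fin (2 * n) => decide ((i : ℕ) < n) := ⟨_, rfl⟩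
  obtain ⟨m, hm⟩ : ∃ m : Fin (2 * n) → ℕ, m = fun i => if b i then 1 else 2 := ⟨_, rfl⟩
  have hm1 : ∀ i, 1 ≤ m i := by
    intro i
    rw [hm]
    simp only
    split_ifs <;> omega
  have hcount : ∑ i : Fin (2 * n), (if (i : ℕ) < n then 1 else 0) = n := by
    rw [Fin.sum_univ_eq_sum_range (fun i => if i < n then 1 else 0) (2 * n), ← Finset.sum_filter,
      Finset.sum_const, smul_eq_mul, mul_one]
    have : (Finset.range (2 * n)).filter (fun i => i < n) = Finset.range n := by
      ext i
      rw [Finset.mem_filter, Finset.mem_range, Finset.mem_range]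
      omega
    rw [this, Finset.card_range]
  have hct : Fintype.card {i : Fin (2 * n) // b i = true} = n := by
    rw [Fintype.card_subtype, Finset.card_filter]
    refine Eq.trans (Finset.sum_congr rfl fun i _ => ?_) hcount
    rw [hb]
    simp
  have hcf : Fintype.card {i : Fin (2 * n) // b i = false} = n := by
    have h1 := Fintype.card_subtype_compl (fun i : Fin (2 * n) => b i = true)
    rw [hct, Fintype.card_fin] at h1
    have h2 : Fintype.card {i : Fin (2 * n) // b i = false} =
        Fintype.card {i : Fin (2 * n) // ¬ b i = true} := by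
      refine Fintype.card_congr (Equiv.subtypeEquivRight fun i => ?_)
      simp
    rw [h2, h1]
    omega
  have hsum : ∑ i, m i = 3 * n := by
    have h1 : ∀ i : Fin (2 * n), m i + (if (i : ℕ) < n then 1 else 0) = 2 := by
      intro i
      rw [hm, hb]
      simp only [decide_eq_true_eq]
      split_ifs <;> rfl
    have h2 : ∑ i, m i + ∑ i : Fin (2 * n), (if (i : ℕ) < n then 1 else 0) = 4 * n := by
      rw [← Finset.sum_add_distrib, Finset.sum_congr rfl fun i _ => h1 i]
      simp
      ring
    rw [hcount] at h2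
    omega
  have hstab : Fintype.card {σ : Equiv.Perm (Fin (2 * n)) // m ∘ σ = m} =
      n.factorial * n.factorial := by
    have h1 := DomMulAct.stabilizer_card b
    have h2 : Fintype.card {σ : Equiv.Perm (Fin (2 * n)) // m ∘ σ = m} =
        Fintype.card {σ : Equiv.Perm (Fin (2 * n)) // b ∘ σ = b} := by
      refine Fintype.card_congr (Equiv.subtypeEquivRight fun σ => ?_)
      constructor
      · intro h
        funext i
        have h3 := congrFun h i
        rw [hm] at h3
        simp only [Function.comp_apply] at h3 ⊢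
        cases h4 : b (σ i) <;> cases h5 : b i <;> simp_all
      · intro h
        funext i
        have h3 := congrFun h i
        rw [hm]
        simp only [Function.comp_apply] at h3 ⊢
        rw [h3]
    rw [h2, h1, Fintype.prod_bool, hct, hcf]
  obtain ⟨K, i1, i2, P, hP1, hP2⟩ := exists_family hm1 (by omega : 1 ≤ 2 * n) hsum
  refine ⟨K, i1, i2, P, ?_, hP2⟩
  rw [hstab] at hP1
  have h1 : (2 * n).factorial = n.centralBinom * (n.factorial * n.factorial) := by
    have := Nat.choose_mul_factorial_mul_factorial (show n ≤ 2 * n by omega)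
    rw [show 2 * n - n = n by omega] at this
    rw [Nat.centralBinom_eq_two_mul_choose, ← this]
    ring
  rw [h1] at hP1
  have h2 : 0 < n.factorial * n.factorial := by positivity
  refine Nat.le_of_mul_le_mul_right ?_ h2
  calc n.centralBinom * (n.factorial * n.factorial)
      ≤ 2 * n * (n.factorial * n.factorial) * P.card := hP1
    _ = 2 * n * P.card * (n.factorial * n.factorial) := by ring

end Pool.Agent.H423.SH
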