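import Pool.Graph.R_pool_sql_team_seeded_3997aac3.Q265.BD.H
import Pool.Agent.H423.SH.Many

/-! # The values of a family of Belyi polynomials at one point, uniformly in the field -/

set_option autoImplicit false

open NumberField Height Function Polynomial

namespace Pool.Agent.H423.SH

open Q241.AK Q265.NF Q265.BM Q265.BD

section

variable {F : Type} [Field F] [NumberField F]

/-- the height of a value from above -/
theorem upA {p : F[X]} {d : ℕ} (hp : p.natDegree ≤ d) :
    ∃ C : ℝ, 0 ≤ C ∧ ∀ (L : Type) [Field L] [NumberField L] [Algebra F L] (t : L),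
      logHeight₁ ((p.map (algebraMap F L)).eval t) ≤ d * logHeight₁ t + Module.finrank ℚ L * C := by
  classical
  obtain ⟨β, hβ0, hβ1, hβ⟩ := clearI (K := F) (p.support.image p.coeff)
  have hco : ∀ (i : ℕ), IsIntegral ℤ ((C β * p).coeff i) := by
    intro i
    rw [coeff_C_mul]
    by_cases h : p.coeff i = 0
    · rw [h, mul_zero]
      exact isIntegral_zero
    · exact hβ _ (Finset.mem_image_of_mem _ (mem_support_iff.2 h))
  obtain ⟨C1, hC1, i1⟩ := inf_evalA (C β * p)
  obtain ⟨C2, hC2, i2⟩ := inf_evalA (C β : F[X])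
  refine ⟨Real.log (C1 + C2), Real.log_nonneg (by linarith), fun L _ _ _ t => ?_⟩
  have hβL : algebraMap F L β ≠ 0 := by
    rw [Ne, FaithfulSMul.algebraMap_eq_zero_iff]
    exact hβ0
  obtain ⟨b, hb⟩ : ∃ b : L, b = algebraMap F L β := ⟨_, rfl⟩
  rw [← hb] at hβL
  obtain ⟨y, hy⟩ : ∃ y : L, y = (p.map (algebraMap F L)).eval t := ⟨_, rfl⟩
  have ev : ((C β * p).map (algebraMap F L)).eval t = b * y := by
    rw [Polynomial.map_mul, map_C, eval_mul, eval_C, ← hb, ← hy]
  have ev2 : ((C β : F[X]).map (algebraMap F L)).eval t = b := by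
    rw [map_C, eval_C, ← hb]
  have hdeg : ((C β * p).map (algebraMap F L)).natDegree ≤ d :=
    (natDegree_map_le.trans (natDegree_C_mul_le β p)).trans hp
  have hdeg2 : ((C β : F[X]).map (algebraMap F L)).natDegree ≤ d := by
    rw [map_C, natDegree_C]
    exact Nat.zero_le _
  have h1 : logHeight ![b * y, b] ≤ logHeight ![t ^ d, 1] +
      Module.finrank ℚ L * Real.log (C1 + C2) := by
    refine loc_le2 (fun h => hβL (congrFun h 1)) (fun h => one_ne_zero (congrFun h 1))
      (by linarith) (fun v => ?_) (fun w => ?_)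
    · show max (v (b * y)) (v b) ≤ max (v (t ^ d)) (v 1)
      have e : max (v (t ^ d)) (v (1 : L)) = (max (v t) 1) ^ d := by
        rw [map_pow, map_one]
        rcases le_total (v t) 1 with h | h
        · rw [max_eq_right h, one_pow, max_eq_right]
          exact pow_le_one₀ (apply_nonneg v t) h
        · rw [max_eq_left h, max_eq_left]
          exact one_le_pow₀ h
      rw [e]
      refine max_le ?_ ?_
      · have := fin_eval v ((C β * p).map (algebraMap F L)) hdeg zero_le_one (fun i => by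
          rw [coeff_map]
          exact int_le v (hco i)) t
        rwa [one_mul, ev] at this
      · rw [hb]
        refine (int_le v hβ1).trans ?_
        exact one_le_pow₀ (le_max_right _ _)
    · show max (w (b * y)) (w b) ≤ (C1 + C2) * max (w (t ^ d)) (w 1)
      have e : max (w (t ^ d)) (w (1 : L)) = (max (w t) 1) ^ d := by
        rw [map_pow, map_one]
        rcases le_total (w t) 1 with h | h
        · rw [max_eq_right h, one_pow, max_eq_right]
          exact pow_le_one₀ (apply_nonneg w t) h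
        · rw [max_eq_left h, max_eq_left]
          exact one_le_pow₀ h
      rw [e]
      have h3 := i1 L d hdeg w t
      have h4 := i2 L d hdeg2 w t
      rw [ev] at h3
      rw [ev2] at h4
      have h5 : 0 ≤ (max (w t) 1) ^ d := by positivity
      refine max_le ?_ ?_
      · nlinarith
      · nlinarith
  have h2 : logHeight ![b * y, b] = logHeight₁ y := by
    rw [← logHeight₁_div_eq_logHeight, mul_div_cancel_left₀ _ hβL]
  have h3 : logHeight ![t ^ d, 1] = d * logHeight₁ t := by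
    rw [← logHeight₁_div_eq_logHeight, div_one, logHeight₁_pow]
  rw [← hy, ← h2, ← h3]
  exact h1

/-- the roots of a nonzero polynomial which vanishes at zero have bounded height -/
theorem rootsA {p : F[X]} (hp : p ≠ 0) (h0 : p.eval 0 = 0) :
    ∃ C : ℝ, 0 ≤ C ∧ ∀ (L : Type) [Field L] [NumberField L] [Algebra F L] (t : L),
      (p.map (algebraMap F L)).eval t = 0 → logHeight₁ t ≤ Module.finrank ℚ L * C := by
  have hd : 1 ≤ p.natDegree := by
    by_contra h
    have h1 : p.natDegree = 0 := by omega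
    rw [eq_C_of_natDegree_eq_zero h1, eval_C] at h0
    rw [eq_C_of_natDegree_eq_zero h1, h0, C_0] at hp
    exact hp rfl
  obtain ⟨C, hC, h⟩ := lowA hd (isCoprime_one_right : IsCoprime p 1) le_rfl
    (by rw [natDegree_one]; omega) (Or.inl rfl)
  refine ⟨C, hC, fun L _ _ _ t ht => ?_⟩
  have h1 := h L t
  rw [ht, Polynomial.map_one, eval_one, ← logHeight₁_div_eq_logHeight, zero_div,
    logHeight₁_zero] at h1
  have h2 : (1 : ℝ) ≤ p.natDegree := by exact_mod_cast hd
  have h3 := zero_le_logHeight₁ t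
  nlinarith

/-- one polynomial -/
theorem oneMap {D : ℕ} (hD : 1 ≤ D) {f : F[X]} (hf : Good D f) :
    ∃ C : ℝ, 0 ≤ C ∧ ∀ (L : Type) [Field L] [NumberField L] [Algebra F L] (t : L),
      Module.finrank ℚ L * C < logHeight₁ t → ∀ y : L, y = (f.map (algebraMap F L)).eval t →
      y ≠ 0 ∧ y ≠ 1 ∧ D * logHeight₁ t ≤ logHeight₁ y + Module.finrank ℚ L * C ∧
        logHeight₁ y ≤ D * logHeight₁ t + Module.finrank ℚ L * C ∧
        Real.log (PP (UsA ∅ ![0, 1] y)) ≤ Real.log (PP (UsA ∅ ![0, 1] t)) +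
          (D - 1) * logHeight₁ t + Module.finrank ℚ L * C := by
  obtain ⟨r, N, hr1, hr2, hr3⟩ := hf.rad
  have hP : Pol f 1 ![0, 1] = f * (f - 1) := by
    rw [Pol3, one_mul]
  have hne : f * (f - 1) ≠ 0 := by
    refine mul_ne_zero ?_ ?_
    · rintro rfl
      have := hf.one
      rw [eval_zero] at this
      exact zero_ne_one this
    · intro h
      have := hf.zero
      rw [sub_eq_zero.1 h, eval_one] at this
      exact one_ne_zero this
  obtain ⟨n, C1, hn, hC1, h1⟩ := stepA (K := F) (p := f) (q := 1) hD isCoprime_one_right hf.deg.le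
    (by rw [natDegree_one]; omega) (Or.inl hf.deg) (k := 2) ![0, 1] (r := r)
    (by rw [hP]; exact hr1) (NN := N) (by rw [hP]; exact hr2) (by rw [hP]; exact hne)
    (by omega) ![0, 1] (by
      intro i j hij
      fin_cases i <;> fin_cases j <;> simp_all)
    (by
      intro i
      rw [hP, eval_mul, eval_sub, eval_one]
      fin_cases i
      · show f.eval 0 * (f.eval 0 - 1) = 0
        rw [hf.zero, zero_mul]
      · show f.eval 1 * (f.eval 1 - 1) = 0
        rw [hf.one, sub_self, mul_zero])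
  obtain ⟨C2, hC2, h2⟩ := upA hf.deg.le
  refine ⟨C1 + C2, by positivity, fun L _ _ _ t ht y hy => ?_⟩
  obtain ⟨nL, hnL⟩ : ∃ nL : ℝ, nL = Module.finrank ℚ L := ⟨_, rfl⟩
  have hnL0 : 0 < nL := by
    rw [hnL]
    exact_mod_cast Module.finrank_pos
  have m1 : nL * C1 ≤ nL * (C1 + C2) := mul_le_mul_of_nonneg_left (by linarith) hnL0.le
  have m2 : nL * C2 ≤ nL * (C1 + C2) := mul_le_mul_of_nonneg_left (by linarith) hnL0.le
  have m3 : 0 ≤ nL * (C1 + C2) := by positivity
  rw [← hnL] at ht ⊢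
  have eF : (fun j => algebraMap F L ((![0, 1] : Fin 2 → F) j)) = ![0, 1] := by
    funext j
    fin_cases j <;> simp
  have htne : ∀ i, t ≠ algebraMap F L ((![0, 1] : Fin 2 → F) i) := by
    intro i h
    fin_cases i
    · have h' : t = 0 := by rw [h]; simp
      rw [h', logHeight₁_zero] at ht
      linarith
    · have h' : t = 1 := by rw [h]; simp
      rw [h', logHeight₁_one] at ht
      linarith
  obtain ⟨k1, k2⟩ := h1 L t htne
  have hev : ((Pol f 1 ![0, 1]).map (algebraMap F L)).eval t ≠ 0 := by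
    intro h
    have := k1 h
    rw [← hnL] at this
    linarith
  obtain ⟨k3, k4⟩ := k2 hev
  have k5 := k4 y (by rw [hy, Polynomial.map_one, eval_one, div_one])
  obtain ⟨k6, k7, k8⟩ := k5
  have k9 := h2 L t
  rw [← hy, ← hnL] at k9
  have k10 := k8 ∅
  rw [eF, ← hnL] at k10
  rw [← hnL] at k7
  have hnD : (n : ℝ) ≤ D - 1 := by
    have h7 : n ≤ D - 1 := by
      have : 2 + n ≤ D * 1 + 1 := hn
      omega
    have h8 : ((n : ℕ) : ℝ) ≤ ((D - 1 : ℕ) : ℝ) := by exact_mod_cast h7
    rwa [Nat.cast_sub hD, Nat.cast_one] at h8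
  have hh := zero_le_logHeight₁ t
  have m4 : (n : ℝ) * logHeight₁ t ≤ (D - 1) * logHeight₁ t :=
    mul_le_mul_of_nonneg_right hnD hh
  refine ⟨?_, ?_, by linarith, by linarith, by linarith⟩
  · have := k6 0
    simpa using this
  · have := k6 1
    simpa using this

/-- **The family at one point.** -/
theorem family {D : ℕ} (hD : 1 ≤ D) (P : Finset F[X]) (hP : ∀ f ∈ P, Good D f) :
    ∃ C : ℝ, 0 ≤ C ∧ ∀ (L : Type) [Field L] [NumberField L] [Algebra F L] (t : L),
      Module.finrank ℚ L * C < logHeight₁ t →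
      Set.InjOn (fun f : F[X] => (f.map (algebraMap F L)).eval t) P ∧
      ∀ f ∈ P, ∀ y : L, y = (f.map (algebraMap F L)).eval t →
      y ≠ 0 ∧ y ≠ 1 ∧ D * logHeight₁ t ≤ logHeight₁ y + Module.finrank ℚ L * C ∧
        logHeight₁ y ≤ D * logHeight₁ t + Module.finrank ℚ L * C ∧
        Real.log (PP (UsA ∅ ![0, 1] y)) ≤ Real.log (PP (UsA ∅ ![0, 1] t)) +
          (D - 1) * logHeight₁ t + Module.finrank ℚ L * C := by
  classical
  have h1 : ∀ f : F[X], ∃ C : ℝ, 0 ≤ C ∧ (f ∈ P → ∀ (L : Type) [Field L] [NumberField L] [Algebra F L]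
      (t : L), Module.finrank ℚ L * C < logHeight₁ t → ∀ y : L,
      y = (f.map (algebraMap F L)).eval t →
      y ≠ 0 ∧ y ≠ 1 ∧ D * logHeight₁ t ≤ logHeight₁ y + Module.finrank ℚ L * C ∧
        logHeight₁ y ≤ D * logHeight₁ t + Module.finrank ℚ L * C ∧
        Real.log (PP (UsA ∅ ![0, 1] y)) ≤ Real.log (PP (UsA ∅ ![0, 1] t)) +
          (D - 1) * logHeight₁ t + Module.finrank ℚ L * C) := by
    intro f
    by_cases hf : f ∈ P
    · obtain ⟨C, h1, h2⟩ := oneMap hD (hP f hf)
      exact ⟨C, h1, fun _ => h2⟩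
    · exact ⟨0, le_rfl, fun h => absurd h hf⟩
  have h2 : ∀ p : F[X] × F[X], ∃ C : ℝ, 0 ≤ C ∧ (p.1 ∈ P → p.2 ∈ P → p.1 ≠ p.2 →
      ∀ (L : Type) [Field L] [NumberField L] [Algebra F L] (t : L),
      ((p.1 - p.2).map (algebraMap F L)).eval t = 0 → logHeight₁ t ≤ Module.finrank ℚ L * C) := by
    intro p
    by_cases hf : p.1 ∈ P ∧ p.2 ∈ P ∧ p.1 ≠ p.2
    · obtain ⟨h3, h4, h5⟩ := hf
      obtain ⟨C, h6, h7⟩ := rootsA (sub_ne_zero.2 h5) (by
        rw [eval_sub, (hP _ h3).zero, (hP _ h4).zero, sub_self])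
      exact ⟨C, h6, fun _ _ _ => h7⟩
    · exact ⟨0, le_rfl, fun h3 h4 h5 => absurd ⟨h3, h4, h5⟩ hf⟩
  choose C1 hC1 k1 using h1
  choose C2 hC2 k2 using h2
  refine ⟨∑ f ∈ P, C1 f + ∑ p ∈ P ×ˢ P, C2 p, ?_, fun L _ _ _ t ht => ?_⟩
  · exact add_nonneg (Finset.sum_nonneg fun f _ => hC1 f) (Finset.sum_nonneg fun p _ => hC2 p)
  obtain ⟨nL, hnL⟩ : ∃ nL : ℝ, nL = Module.finrank ℚ L := ⟨_, rfl⟩
  have hnL0 : 0 < nL := by
    rw [hnL]
    exact_mod_cast Module.finrank_pos
  obtain ⟨CC, hCC⟩ : ∃ CC : ℝ, CC = ∑ f ∈ P, C1 f + ∑ p ∈ P ×ˢ P, C2 p := ⟨_, rfl⟩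
  rw [← hCC] at ht ⊢
  have b1 : ∀ f ∈ P, C1 f ≤ CC := by
    intro f hf
    have h1 := Finset.single_le_sum (f := C1) (fun f _ => hC1 f) hf
    have h2 : 0 ≤ ∑ p ∈ P ×ˢ P, C2 p := Finset.sum_nonneg fun p _ => hC2 p
    linarith
  have b2 : ∀ p ∈ P ×ˢ P, C2 p ≤ CC := by
    intro p hp
    have h1 := Finset.single_le_sum (f := C2) (fun p _ => hC2 p) hp
    have h2 : 0 ≤ ∑ f ∈ P, C1 f := Finset.sum_nonneg fun f _ => hC1 f
    linarith
  rw [← hnL] at ht ⊢
  constructor
  · intro f hf g hg hfg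
    by_contra hne
    have h3 := k2 (f, g) hf hg hne L t (by
      rw [Polynomial.map_sub, eval_sub]
      exact sub_eq_zero.2 hfg)
    rw [← hnL] at h3
    have h4 := mul_le_mul_of_nonneg_left (b2 (f, g) (Finset.mk_mem_product hf hg)) hnL0.le
    linarith
  · intro f hf y hy
    have h4 := mul_le_mul_of_nonneg_left (b1 f hf) hnL0.le
    obtain ⟨m1, m2, m3, m4, m5⟩ := k1 f hf L t (by rw [← hnL]; linarith) y hy
    rw [← hnL] at m3 m4 m5
    exact ⟨m1, m2, by linarith, by linarith, by linarith⟩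

end

end Pool.Agent.H423.SH
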