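import Mathlib

/-! # Weighted power sums: the zeros of `p_1, …, p_{k-1}` have distinct nonzero coordinates -/

set_option autoImplicit false

open Polynomial

namespace Pool.Agent.H423.SH

variable {L : Type*} [Field L]

lemma sum_poly {k : ℕ} {w u : Fin k → L} {d : ℕ}
    (h : ∀ j, 1 ≤ j → j ≤ d → ∑ i, w i * u i ^ j = 0)
    {q : L[X]} (hq : q.natDegree ≤ d) (h0 : q.coeff 0 = 0) : ∑ i, w i * q.eval (u i) = 0 := by
  have e : ∀ i, w i * q.eval (u i) = ∑ j ∈ Finset.range (d + 1), q.coeff j * (w i * u i ^ j) := by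
    intro i
    rw [eval_eq_sum_range' (Nat.lt_succ_of_le hq), Finset.mul_sum]
    refine Finset.sum_congr rfl fun j _ => ?_
    ring
  rw [Finset.sum_congr rfl fun i _ => e i, Finset.sum_comm]
  refine Finset.sum_eq_zero fun j hj => ?_
  rw [← Finset.mul_sum]
  rw [Finset.mem_range] at hj
  rcases Nat.eq_zero_or_pos j with rfl | hj0
  · rw [h0, zero_mul]
  · rw [h j hj0 (by omega), mul_zero]

/-- if the first `d` power sums vanish and there are at most `d` different nonzero coordinates, all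
coordinates are zero -/
lemma eq_zero {k : ℕ} {w u : Fin k → L} {d : ℕ} [DecidableEq L]
    (hw : ∀ S : Finset (Fin k), S.Nonempty → ∑ i ∈ S, w i ≠ 0)
    (h : ∀ j, 1 ≤ j → j ≤ d → ∑ i, w i * u i ^ j = 0)
    (hc : ((Finset.univ.image u).erase 0).card ≤ d) : u = 0 := by
  by_contra hne
  obtain ⟨i0, hi0⟩ := Function.ne_iff.1 hne
  set V := (Finset.univ.image u).erase 0 with hV
  have hi0' : u i0 ≠ 0 := hi0
  have hmem : u i0 ∈ V := by
    rw [hV, Finset.mem_erase]
    exact ⟨hi0', Finset.mem_image_of_mem u (Finset.mem_univ i0)⟩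
  obtain ⟨q, hq⟩ : ∃ q : L[X], q = X * ∏ v ∈ V.erase (u i0), (X - C v) := ⟨_, rfl⟩
  have hdeg : q.natDegree ≤ d := by
    rw [hq]
    refine natDegree_mul_le.trans ?_
    rw [natDegree_X, natDegree_prod_of_monic _ _ fun v _ => monic_X_sub_C v]
    simp only [natDegree_X_sub_C, Finset.sum_const, smul_eq_mul, mul_one]
    rw [Finset.card_erase_of_mem hmem]
    have : 1 ≤ V.card := Finset.card_pos.2 ⟨_, hmem⟩
    omega
  have hq0 : q.coeff 0 = 0 := by
    rw [hq, coeff_zero_eq_eval_zero, eval_mul, eval_X, zero_mul]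
  have h1 := sum_poly h hdeg hq0
  have h2 : ∀ i, w i * q.eval (u i) = if u i = u i0 then w i * q.eval (u i0) else 0 := by
    intro i
    by_cases hi : u i = u i0
    · rw [if_pos hi, hi]
    · rw [if_neg hi]
      by_cases hz : u i = 0
      · rw [hz, hq, eval_mul, eval_X, zero_mul, mul_zero]
      · have hiV : u i ∈ V.erase (u i0) := by
          rw [Finset.mem_erase, hV, Finset.mem_erase]
          exact ⟨hi, hz, Finset.mem_image_of_mem u (Finset.mem_univ i)⟩
        rw [hq, eval_mul, eval_prod, Finset.prod_eq_zero hiV (by simp), mul_zero, mul_zero]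
  rw [Finset.sum_congr rfl fun i _ => h2 i, ← Finset.sum_filter, ← Finset.sum_mul] at h1
  have h3 : q.eval (u i0) ≠ 0 := by
    rw [hq, eval_mul, eval_X, eval_prod]
    refine mul_ne_zero hi0' (Finset.prod_ne_zero_iff.2 fun v hv => ?_)
    rw [eval_sub, eval_X, eval_C, sub_ne_zero]
    exact (Finset.ne_of_mem_erase hv).symm
  refine (mul_ne_zero (hw _ ⟨i0, ?_⟩) h3) h1
  rw [Finset.mem_filter]
  exact ⟨Finset.mem_univ _, rfl⟩

/-- the zeros of the first `k - 1` power sums which are not zeros of the last one have distinct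
nonzero coordinates -/
lemma inj_of {k : ℕ} {w u : Fin k → L}
    (hw : ∀ S : Finset (Fin k), S.Nonempty → ∑ i ∈ S, w i ≠ 0)
    (h : ∀ j, 1 ≤ j → j < k → ∑ i, w i * u i ^ j = 0) (hk : ∑ i, w i * u i ^ k ≠ 0) (hk1 : 1 ≤ k) :
    Function.Injective u ∧ ∀ i, u i ≠ 0 := by
  classical
  have h1 : k ≤ ((Finset.univ.image u).erase 0).card := by
    by_contra hlt
    push Not at hlt
    have := eq_zero hw (d := k - 1) (u := u) (fun j hj hj2 => h j hj (by omega)) (by omega)
    apply hk
    rw [this]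
    refine Finset.sum_eq_zero fun i _ => ?_
    rw [Pi.zero_apply, zero_pow (by omega), mul_zero]
  have h2 : (Finset.univ.image u).card ≤ k := by
    refine Finset.card_image_le.trans ?_
    rw [Finset.card_univ, Fintype.card_fin]
  have h3 : ((Finset.univ.image u).erase 0).card ≤ (Finset.univ.image u).card :=
    Finset.card_le_card (Finset.erase_subset _ _)
  have h4 : (Finset.univ.image u).card = (Finset.univ : Finset (Fin k)).card := by
    rw [Finset.card_univ, Fintype.card_fin]
    omega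
  refine ⟨?_, ?_⟩
  · have := Finset.card_image_iff.1 h4
    intro a b hab
    exact this (Finset.mem_coe.2 (Finset.mem_univ a)) (Finset.mem_coe.2 (Finset.mem_univ b)) hab
  · intro i hi
    have h5 : (0 : L) ∈ Finset.univ.image u := by
      rw [← hi]
      exact Finset.mem_image_of_mem u (Finset.mem_univ i)
    rw [Finset.card_erase_of_mem h5] at h1
    omega

/-- the Jacobian -/
lemma jac {k : ℕ} [CharZero L] {w u v : Fin k → L} (hw : ∀ i, w i ≠ 0)
    (hu : Function.Injective u)
    (h : ∀ j : Fin k, ∑ i, w i * (((j : ℕ) + 1 : ℕ) * u i ^ (j : ℕ) * v i) = 0) : v = 0 := by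
  have h1 : ∀ j : Fin k, ∑ i, (w i * v i) * u i ^ (j : ℕ) = 0 := by
    intro j
    have h2 := h j
    have h3 : ((((j : ℕ) + 1 : ℕ)) : L) ≠ 0 := Nat.cast_ne_zero.2 (Nat.succ_ne_zero _)
    have h4 : ∑ i, w i * (((j : ℕ) + 1 : ℕ) * u i ^ (j : ℕ) * v i) =
        (((j : ℕ) + 1 : ℕ) : L) * ∑ i, (w i * v i) * u i ^ (j : ℕ) := by
      rw [Finset.mul_sum]
      refine Finset.sum_congr rfl fun i _ => ?_
      ring
    rw [h4] at h2
    exact (mul_eq_zero.1 h2).resolve_left h3
  have h5 := Matrix.eq_zero_of_forall_pow_sum_mul_pow_eq_zero hu h1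
  funext i
  have h6 : w i * v i = 0 := congrFun h5 i
  exact (mul_eq_zero.1 h6).resolve_left (hw i)

end Pool.Agent.H423.SH
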